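import Mathlib

set_option autoImplicit false

open MeasureTheory Filter Topology Set
open scoped ENNReal NNReal

namespace Pool.Agent.H.MP_523de7_an

theorem dim_zero (X : Set (ℕ → Bool)) (m M : ℕ → ℕ)
    (h : ∀ i, ∀ y ∈ X, ∀ z ∈ X, (∀ n < m i, y n = z n) → ∀ n < M i, y n = z n)
    (h1 : ∀ i, i * m i ≤ M i) (h2 : ∀ i, i ≤ M i) :
    letI : MetricSpace (ℕ → Bool) := PiNat.metricSpace; dimH X = 0 := by
  letI : MetricSpace (ℕ → Bool) := PiNat.metricSpace
  borelize (ℕ → Bool)
  refine le_antisymm (dimH_le fun d hd => ?_) bot_le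
  by_contra hd0
  have hd1 : (0 : ℝ) < d := by
    rcases eq_or_lt_of_le d.coe_nonneg with h0 | h0
    · exact absurd (by rw [NNReal.coe_eq_zero.1 h0.symm]; simp) hd0
    · exact h0
  have ht : ∀ i (p : Fin (m i) → Bool),
      Metric.ediam {y ∈ X | ∀ n : Fin (m i), y n = p n} ≤ (2⁻¹ : ℝ≥0∞) ^ M i := by
    intro i p
    refine Metric.ediam_le fun y hy z hz => ?_
    have h3 : dist y z ≤ (1 / 2) ^ M i := PiNat.mem_cylinder_iff_dist_le.1
      (PiNat.mem_cylinder_iff.2 (h i y hy.1 z hz.1 fun n hn =>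
        (hy.2 ⟨n, hn⟩).trans (hz.2 ⟨n, hn⟩).symm))
    rw [edist_dist]
    refine (ENNReal.ofReal_le_ofReal h3).trans (le_of_eq ?_)
    rw [ENNReal.ofReal_pow (by norm_num), one_div, ENNReal.ofReal_inv_of_pos (by norm_num)]
    simp
  have := Measure.hausdorffMeasure_le_liminf_sum (d : ℝ) X (l := atTop)
    (fun i => (2⁻¹ : ℝ≥0∞) ^ M i)
    ((ENNReal.tendsto_pow_atTop_nhds_zero_of_lt_one (by simp)).comp
      (tendsto_atTop_mono h2 tendsto_id))
    (fun i (p : Fin (m i) → Bool) => {y ∈ X | ∀ n : Fin (m i), y n = p n})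
    (Eventually.of_forall ht)
    (Eventually.of_forall fun i y hy => mem_iUnion.2 ⟨fun n => y n, hy, fun _ => rfl⟩)
  rw [hd, top_le_iff] at this
  refine absurd this (ne_top_of_le_ne_top ENNReal.one_ne_top (liminf_le_of_frequently_le' ?_))
  obtain ⟨k, hk⟩ := exists_nat_ge (1 / d : ℝ)
  refine Eventually.frequently ?_
  filter_upwards [eventually_ge_atTop k] with i hi
  refine (Finset.sum_le_card_nsmul _ _ ((2⁻¹ : ℝ≥0∞) ^ m i) fun p _ => ?_).trans ?_
  · refine (ENNReal.rpow_le_rpow (ht i p) hd1.le).trans ?_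
    rw [← ENNReal.rpow_natCast, ← ENNReal.rpow_mul, ← ENNReal.rpow_natCast]
    refine ENNReal.rpow_le_rpow_of_exponent_ge (by simp) ?_
    have h3 : (i : ℝ) * m i ≤ M i := by exact_mod_cast h1 i
    have h4 : (k : ℝ) ≤ i := by exact_mod_cast hi
    have h5 : 1 ≤ (i : ℝ) * d := by
      rw [div_le_iff₀ hd1] at hk
      nlinarith
    have h6 : (0 : ℝ) ≤ m i := by positivity
    nlinarith
  · simp only [Finset.card_univ, Fintype.card_fun, Fintype.card_bool, Fintype.card_fin,
      nsmul_eq_mul, Nat.cast_pow, Nat.cast_ofNat]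
    rw [← mul_pow, ENNReal.mul_inv_cancel (by simp) (by simp), one_pow]

abbrev V := ℤ × ℤ × ℤ × ℤ

def mul (v : V) (x y : Bool) : V :=
  (v.2.2.2 + (x.toNat - y.toNat), v.1 - v.2.2.2, v.2.1, v.2.2.1 + 2 * v.2.2.2)

def lb (c lo hi : ℤ) : ℤ := if 0 ≤ c then c * lo else c * hi

def low (v : V) : ℤ :=
  v.1 * 10000 + lb v.2.1 18667 18668 + lb v.2.2.1 34845 34850 + lb v.2.2.2 65046 65058

def out (v : V) : Bool := decide (11539 < low v) || decide (11539 < low (-v))

def ext : V → List Bool → List (List Bool × V)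
  | v, [] => [([], v)]
  | v, x :: W => [false, true].flatMap fun y =>
      if out (mul v x y) then [] else (ext (mul v x y) W).map fun q => (y :: q.1, q.2)

def run : V → List Bool → List Bool → V
  | v, x :: W, y :: P => run (mul v x y) W P
  | v, _, _ => v

def seg (a : ℕ → Bool) : ℕ → ℕ → List Bool
  | _, 0 => []
  | n, l + 1 => a n :: seg a (n + 1) l

def st (a b : ℕ → Bool) : ℕ → V
  | 0 => 0
  | n + 1 => mul (st a b n) (a n) (b n)

theorem st_run (a b : ℕ → Bool) (l : ℕ) :
    ∀ n, st a b (n + l) = run (st a b n) (seg a n l) (seg b n l) := by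
  induction l with
  | zero => intro n; rfl
  | succ l ih =>
    intro n
    rw [show n + (l + 1) = n + 1 + l by omega, ih]
    rfl

theorem mem_ext {a b : ℕ → Bool} (h : ∀ n, out (st a b n) = false) (l : ℕ) :
    ∀ n, (seg b n l, st a b (n + l)) ∈ ext (st a b n) (seg a n l) := by
  induction l with
  | zero => intro n; simp [seg, ext]
  | succ l ih =>
    intro n
    have h1 := h (n + 1)
    have h2 := ih (n + 1)
    rw [show n + (l + 1) = n + 1 + l by omega]
    simp only [seg, ext, List.mem_flatMap]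
    refine ⟨b n, by cases b n <;> simp, ?_⟩
    change out (mul (st a b n) (a n) (b n)) = false at h1
    rw [h1]
    exact List.mem_map.2 ⟨_, h2, rfl⟩

theorem seg_eq {a b : ℕ → Bool} {l : ℕ} :
    ∀ {n}, seg a n l = seg b n l → ∀ i < l, a (n + i) = b (n + i) := by
  induction l with
  | zero => simp
  | succ l ih =>
    intro n h i hi
    simp only [seg, List.cons.injEq] at h
    cases i with
    | zero => exact h.1
    | succ i =>
      rw [show n + (i + 1) = n + 1 + i by omega]
      exact ih h.2 i (by omega)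

def cat (f : ℕ → List Bool) (n : ℕ) : Bool := (f (n / 8)).getD (n % 8) false

theorem cat_apply (f : ℕ → List Bool) (j i : ℕ) (hi : i < 8) :
    cat f (8 * j + i) = (f j).getD i false := by
  unfold cat
  rw [show (8 * j + i) / 8 = j by omega, show (8 * j + i) % 8 = i by omega]

theorem seg_cat (f : ℕ → List Bool) (j : ℕ) (h : (f j).length = 8) :
    seg (cat f) (8 * j) 8 = f j := by
  have h0 := cat_apply f j 0 (by norm_num)
  rw [add_zero] at h0
  simp only [seg, add_assoc, h0]
  repeat rw [cat_apply f j _ (by norm_num)]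
  generalize f j = w at h
  match w, h with
  | [_, _, _, _, _, _, _, _], _ => rfl

noncomputable def ev (β : ℝ) (v : V) : ℝ := v.1 + v.2.1 * β + v.2.2.1 * β ^ 2 + v.2.2.2 * β ^ 3

structure Hy (β : ℝ) : Prop where
  lo : 1.8667 ≤ β
  hi : β ≤ 1.8668
  eq : β ^ 4 = 2 * β ^ 3 - β + 1

theorem exists_Hy : ∃ β, Hy β := by
  obtain ⟨β, h1, h2⟩ := intermediate_value_Icc (f := fun x : ℝ => x ^ 4 - 2 * x ^ 3 + x - 1)
    (show (1.8667 : ℝ) ≤ 1.8668 by norm_num) (by fun_prop)
    (show (0 : ℝ) ∈ _ from ⟨by norm_num, by norm_num⟩)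
  exact ⟨β, h1.1, h1.2, by simp only at h2; linarith⟩

theorem lb_le (c lo hi : ℤ) {t : ℝ} (h1 : (lo : ℝ) ≤ t) (h2 : t ≤ hi) :
    (lb c lo hi : ℝ) ≤ c * t := by
  unfold lb
  split_ifs with h
  · push_cast
    exact mul_le_mul_of_nonneg_left h1 (by exact_mod_cast h)
  · push_cast
    exact mul_le_mul_of_nonpos_left h2 (by exact_mod_cast (not_le.1 h).le)

variable {β : ℝ}

theorem low_le (H : Hy β) (v : V) : (low v : ℝ) ≤ 10000 * ev β v := by
  have h0 := H.lo
  have h1 := H.hi
  have a2 : (1.8667 : ℝ) ^ 2 ≤ β ^ 2 := pow_le_pow_left₀ (by norm_num) h0 2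
  have a3 : (1.8667 : ℝ) ^ 3 ≤ β ^ 3 := pow_le_pow_left₀ (by norm_num) h0 3
  have b2 : β ^ 2 ≤ (1.8668 : ℝ) ^ 2 := pow_le_pow_left₀ (by linarith) h1 2
  have b3 : β ^ 3 ≤ (1.8668 : ℝ) ^ 3 := pow_le_pow_left₀ (by linarith) h1 3
  have e1 := lb_le v.2.1 18667 18668 (t := 10000 * β) (by push_cast; linarith)
    (by push_cast; linarith)
  have e2 := lb_le v.2.2.1 34845 34850 (t := 10000 * β ^ 2) (by push_cast; linarith)
    (by push_cast; linarith)
  have e3 := lb_le v.2.2.2 65046 65058 (t := 10000 * β ^ 3) (by push_cast; linarith)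
    (by push_cast; linarith)
  unfold low ev
  push_cast
  linarith

theorem not_out (H : Hy β) {v : V} (h : |ev β v| ≤ 1 / (β - 1)) : out v = false := by
  have h0 := H.lo
  have h1 : 1 / (β - 1) ≤ 1.1539 := by
    rw [div_le_iff₀ (by linarith)]
    linarith
  have h2 := low_le H v
  have h3 := low_le H (-v)
  have h4 : ev β (-v) = -ev β v := by simp [ev]; ring
  have h5 := abs_le.1 h
  have h6 : (low v : ℝ) ≤ 11539 := by linarith [h5.2]
  have h7 : (low (-v) : ℝ) ≤ 11539 := by linarith [h5.1]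
  have h8 : low v ≤ 11539 := by exact_mod_cast h6
  have h9 : low (-v) ≤ 11539 := by exact_mod_cast h7
  simp [out, h8, h9]

theorem ev_st (H : Hy β) (a b : ℕ → Bool) (n : ℕ) : ev β (st a b n) =
    β ^ n * (∑ i ∈ Finset.range n, ((a i).toNat : ℝ) / β ^ (i + 1)
      - ∑ i ∈ Finset.range n, ((b i).toNat : ℝ) / β ^ (i + 1)) := by
  have h0 : β ≠ 0 := by linarith [H.lo]
  induction n with
  | zero => simp [st, ev]
  | succ n ih =>
    have : ev β (st a b (n + 1)) = β * ev β (st a b n) + ((a n).toNat - (b n).toNat) := by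
      simp only [st, mul, ev]
      push_cast
      linear_combination (-((st a b n).2.2.2 : ℝ)) * H.eq
    rw [this, ih, Finset.sum_range_succ, Finset.sum_range_succ]
    field_simp
    ring

theorem geo (H : Hy β) (n : ℕ) : HasSum (fun i => 1 / β ^ (i + n + 1)) (1 / (β - 1) / β ^ n) := by
  have h0 := H.lo
  have h1 := (hasSum_geometric_of_lt_one (r := β⁻¹) (by positivity)
    (inv_lt_one_of_one_lt₀ (by linarith))).mul_left (1 / β ^ (n + 1))
  have e1 : (fun i => 1 / β ^ (i + n + 1)) = fun i => 1 / β ^ (n + 1) * β⁻¹ ^ i := by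
    ext i
    rw [inv_pow]
    field_simp
    ring
  have e2 : 1 / (β - 1) / β ^ n = 1 / β ^ (n + 1) * (1 - β⁻¹)⁻¹ := by
    have : β - 1 ≠ 0 := by linarith
    field_simp
    ring
  rw [e1, e2]
  exact h1

theorem le_one (a : Bool) : (a.toNat : ℝ) ≤ 1 := by cases a <;> simp

theorem tail (H : Hy β) {a : ℕ → Bool} {x : ℝ}
    (h : HasSum (fun i => ((a i).toNat : ℝ) / β ^ (i + 1)) x) (n : ℕ) :
    x - ∑ i ∈ Finset.range n, ((a i).toNat : ℝ) / β ^ (i + 1) ∈
      Icc 0 (1 / (β - 1) / β ^ n) := by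
  have h0 := H.lo
  have h1 := (hasSum_nat_add_iff' n).2 h
  refine ⟨h1.nonneg fun i => by positivity, hasSum_le (fun i => ?_) h1 (geo H n)⟩
  exact div_le_div_of_nonneg_right (le_one _) (by positivity)

theorem summ (H : Hy β) (a : ℕ → Bool) : Summable fun i => ((a i).toNat : ℝ) / β ^ (i + 1) := by
  have h0 := H.lo
  refine Summable.of_nonneg_of_le (fun i => by positivity) (fun i => ?_) (geo H 0).summable
  exact div_le_div_of_nonneg_right (le_one _) (by positivity)

theorem alive (H : Hy β) {a b : ℕ → Bool} {x : ℝ}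
    (ha : HasSum (fun i => ((a i).toNat : ℝ) / β ^ (i + 1)) x)
    (hb : HasSum (fun i => ((b i).toNat : ℝ) / β ^ (i + 1)) x) (n : ℕ) :
    out (st a b n) = false := by
  have h0 := H.lo
  have h1 := tail H ha n
  have h2 := tail H hb n
  have h3 : 0 < β ^ n := by positivity
  refine not_out H ?_
  rw [ev_st H, abs_mul, abs_of_pos h3, ← le_div_iff₀' h3, abs_le]
  constructor <;> linarith [h1.1, h1.2, h2.1, h2.2]

theorem same (H : Hy β) {a b : ℕ → Bool} {x : ℝ}
    (ha : HasSum (fun i => ((a i).toNat : ℝ) / β ^ (i + 1)) x) {s : V}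
    (h : ∀ j, st a b (8 * (j + 1)) = s) :
    HasSum (fun i => ((b i).toNat : ℝ) / β ^ (i + 1)) x := by
  have h0 := H.lo
  have hb := (summ H b).hasSum
  have ht : Tendsto (fun j : ℕ => 8 * (j + 1)) atTop atTop :=
    tendsto_atTop_mono (fun j => by simp only [id]; omega) tendsto_id
  have h1 := (ha.tendsto_sum_nat.sub hb.tendsto_sum_nat).comp ht
  have h2 : Tendsto (fun j : ℕ => ev β s / β ^ (8 * (j + 1))) atTop (𝓝 0) :=
    tendsto_const_nhds.div_atTop ((tendsto_pow_atTop_atTop_of_one_lt (by linarith)).comp ht)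
  have h3 := tendsto_nhds_unique h1 (h2.congr fun j => by
    rw [← h j, ev_st H, mul_div_cancel_left₀ _ (by positivity)]
    rfl)
  rwa [sub_eq_zero.1 h3]

def wU : List Bool := [false, false, false, true, true, true, false, true]
def wU' : List Bool := [false, false, true, false, false, false, false, false]
def wA : List Bool := [false, false, true, true, true, true, true, true]
def wA' : List Bool := [false, true, false, false, false, true, true, false]
def wA2 : List Bool := [true, false, true, true, false, false, true, false]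
def wB : List Bool := [false, true, false, false, true, true, false, true]
def wB2 : List Bool := [true, false, true, true, true, false, false, true]
def wB3 : List Bool := [true, true, false, false, false, false, false, false]
def ss (s : Bool) : V := if s then (0, 0, 0, 0) else (0, 0, 2, -1)
def blk (c : Bool) : List Bool := if c then wA else wB
def alt (s c t : Bool) : List Bool :=
  if s then (if c then (if t then wA' else wA) else wB) else (if c then wA2 else if t then wB3 else wB2)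

theorem chk0 : ∀ q ∈ ext 0 wU, (∃ s, q.2 = ss s) ∨ ∀ c, ext q.2 (blk c) = [] := by decide +kernel

theorem chk1 : ∀ s c, ∀ q ∈ ext (ss s) (blk c),
    (q.2 = ss s ∧ (c ≠ s → q.1 = alt s c false)) ∨ ∀ c', ext q.2 (blk c') = [] := by
  decide +kernel

theorem chk2 : ∀ s c t, run (ss s) (blk c) (alt s c t) = ss s ∧ (alt s c t).length = 8 ∧
    (blk c).length = 8 ∧ (alt s s t).getD 1 false = t := by decide +kernel

theorem chk3 : ∀ s, run 0 wU (if s then wU else wU') = ss s := by decide +kernel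

def w (j : ℕ) : Bool := decide (Nat.log 2 (Nat.log 2 j) % 2 = 0)

def fa : ℕ → List Bool
  | 0 => wU
  | j + 1 => blk (w j)

def fb (s : Bool) (t : ℕ → Bool) : ℕ → List Bool
  | 0 => if s then wU else wU'
  | j + 1 => alt s (w j) (t j)

theorem seg_a (j : ℕ) : seg (cat fa) (8 * (j + 1)) 8 = blk (w j) :=
  seg_cat fa (j + 1) (chk2 true _ true).2.2.1

theorem structure_thm {b : ℕ → Bool} (h : ∀ n, out (st (cat fa) b n) = false) :
    ∃ s, ∀ j, w j ≠ s → seg b (8 * (j + 1)) 8 = alt s (w j) false := by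
  have hne : ∀ j, ¬ ∀ c, ext (st (cat fa) b (8 * (j + 1))) (blk c) = [] := fun j hc => by
    have := mem_ext h 8 (8 * (j + 1))
    rw [seg_a, hc] at this
    simp at this
  have h0 := mem_ext h 8 (8 * 0)
  rw [seg_cat fa 0 rfl] at h0
  obtain ⟨s, hs⟩ := (chk0 _ h0).resolve_right (hne 0)
  have key : ∀ j, st (cat fa) b (8 * (j + 1)) = ss s →
      st (cat fa) b (8 * (j + 1 + 1)) = ss s ∧
        (w j ≠ s → seg b (8 * (j + 1)) 8 = alt s (w j) false) := fun j hj => by
    have := mem_ext h 8 (8 * (j + 1))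
    rw [seg_a, hj] at this
    exact (chk1 _ _ _ this).resolve_right (hne (j + 1))
  have all : ∀ j, st (cat fa) b (8 * (j + 1)) = ss s := fun j => by
    induction j with
    | zero => exact hs
    | succ j ih => exact (key j ih).1
  exact ⟨s, fun j => (key j (all j)).2⟩

theorem st_fb (s : Bool) (t : ℕ → Bool) (j : ℕ) :
    st (cat fa) (cat (fb s t)) (8 * (j + 1)) = ss s := by
  induction j with
  | zero =>
    have := st_run (cat fa) (cat (fb s t)) 8 (8 * 0)
    rw [seg_cat fa 0 rfl, seg_cat (fb s t) 0 (by cases s <;> rfl)] at this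
    exact this.trans (chk3 s)
  | succ j ih =>
    have := st_run (cat fa) (cat (fb s t)) 8 (8 * (j + 1))
    rw [seg_a, seg_cat (fb s t) (j + 1) (chk2 _ _ _).2.1, ih] at this
    exact this.trans (chk2 _ _ _).1

theorem dim_part (s : Bool) : letI : MetricSpace (ℕ → Bool) := PiNat.metricSpace
    dimH {b : ℕ → Bool | ∀ j, w j ≠ s → seg b (8 * (j + 1)) 8 = alt s (w j) false} = 0 := by
  set k : ℕ → ℕ := fun i => 2 * i + s.toNat with hk
  have hn : ∀ i, i + 1 ≤ 2 ^ 2 ^ k i := fun i => by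
    have h1 : k i < 2 ^ k i := Nat.lt_two_pow_self
    have h2 : 2 ^ k i < 2 ^ 2 ^ k i := Nat.lt_two_pow_self
    simp only [hk] at h1 h2 ⊢
    omega
  have hsq : ∀ i, 2 ^ 2 ^ (k i + 1) = 2 ^ 2 ^ k i * 2 ^ 2 ^ k i := fun i => by
    rw [← pow_add, pow_succ]
    congr 1
    omega
  refine dim_zero _ (fun i => 8 * (2 ^ 2 ^ k i + 1)) (fun i => 8 * (2 ^ 2 ^ (k i + 1) + 1))
    (fun i y hy z hz h n hn' => ?_) (fun i => ?_) (fun i => ?_)
  · by_cases h1 : n < 8 * (2 ^ 2 ^ k i + 1)
    · exact h n h1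
    obtain ⟨j, hj⟩ : ∃ j, n / 8 = j + 1 := ⟨n / 8 - 1, by have := hn i; omega⟩
    have h2 : 2 ^ 2 ^ k i ≤ j := by omega
    have h3 : j < 2 ^ 2 ^ (k i + 1) := by omega
    have h4 : Nat.log 2 (Nat.log 2 j) = k i :=
      Nat.log_eq_of_pow_le_of_lt_pow (Nat.le_log_of_pow_le one_lt_two h2)
        (Nat.log_lt_of_lt_pow' (by positivity) h3)
    have h5 : w j ≠ s := by
      unfold w
      rw [h4]
      cases s <;> simp [hk, Nat.add_mod]
    have := seg_eq ((hy j h5).trans (hz j h5).symm) (n % 8) (by omega)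
    rwa [show 8 * (j + 1) + n % 8 = n by omega] at this
  · have := hn i
    rw [hsq]
    generalize 2 ^ 2 ^ k i = N at this
    nlinarith
  · have := hn i
    rw [hsq]
    generalize 2 ^ 2 ^ k i = N at this
    nlinarith

theorem count_lb (H : Hy β) {x : ℝ}
    (ha : HasSum (fun i => ((cat fa i).toNat : ℝ) / β ^ (i + 1)) x) (k : ℕ) :
    2 ^ ((k / 8 - 1) / 2) ≤ Set.ncard {p : Fin k → Bool | ∃ ε : ℕ → Bool,
      HasSum (fun i => ((ε i).toNat : ℝ) / β ^ (i + 1)) x ∧ ∀ i : Fin k, p i = ε i} := by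
  obtain ⟨s, hs⟩ : ∃ s, (k / 8 - 1) / 2 ≤
      ((Finset.range (k / 8 - 1)).filter fun j => w j = s).card := by
    have := Finset.card_filter_add_card_filter_not (s := Finset.range (k / 8 - 1))
      (fun j => w j = true)
    simp only [Bool.not_eq_true, Finset.card_range] at this
    by_cases h : (k / 8 - 1) / 2 ≤ ((Finset.range (k / 8 - 1)).filter fun j => w j = true).card
    · exact ⟨true, h⟩
    · exact ⟨false, by omega⟩
  set J := (Finset.range (k / 8 - 1)).filter fun j => w j = s with hJ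
  refine (Nat.pow_le_pow_right two_pos hs).trans ?_
  rw [← Finset.card_powerset, ← Set.ncard_coe_finset]
  refine Set.ncard_le_ncard_of_injOn
    (fun T (i : Fin k) => cat (fb s fun j => decide (j ∈ T)) i)
    (fun T _ => ⟨_, same H ha (st_fb s _), fun _ => rfl⟩) (fun T hT T' hT' h => ?_)
  have key : ∀ j ∈ J, (j ∈ T ↔ j ∈ T') := fun j hj => by
    obtain ⟨h1, h2⟩ := Finset.mem_filter.1 hj
    rw [Finset.mem_range] at h1
    have := congrFun h ⟨8 * (j + 1) + 1, by omega⟩
    simp only [cat_apply _ _ 1 (by norm_num), fb, h2, (chk2 s s _).2.2.2] at this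
    simpa using this
  have h1 := Finset.mem_powerset.1 hT
  have h2 := Finset.mem_powerset.1 hT'
  ext j
  exact ⟨fun h => (key j (h1 h)).1 h, fun h => (key j (h2 h)).2 h⟩

end Pool.Agent.H.MP_523de7_an
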